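import Pool.Agent.helper3.XT.Spec

set_option autoImplicit false

namespace Pool.Agent.XT

open Finset SimpleGraph

/-- Points without lines. -/
def CLN_a {n : ℕ} (B : FS n) : Finset (Fin n) := univ.filter fun p => dP B p = ∅

/-- Lines without points. -/
def CLN_b {n : ℕ} (B : FS n) : Finset (Fin n) := univ.filter fun l => dL B l = ∅

/-- The quantity to be maximised. -/
def CLN_f {n : ℕ} (δ : ℝ) (B : FS n) : ℝ :=
  (B.card : ℝ) + δ * (((CLN_a B).card : ℝ) + ((CLN_b B).card : ℝ))

lemma CLN_mem_dP {n : ℕ} (B : FS n) (p l : Fin n) : l ∈ dP B p ↔ (p, l) ∈ B := by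
  unfold dP
  simp

lemma CLN_mem_dL {n : ℕ} (B : FS n) (p l : Fin n) : p ∈ dL B l ↔ (p, l) ∈ B := by
  unfold dL
  simp

lemma CLN_dP_mono {n : ℕ} {B B' : FS n} (h : B' ⊆ B) (p : Fin n) : dP B' p ⊆ dP B p := by
  intro l hl
  rw [CLN_mem_dP] at hl ⊢
  exact h hl

lemma CLN_dL_mono {n : ℕ} {B B' : FS n} (h : B' ⊆ B) (l : Fin n) : dL B' l ⊆ dL B l := by
  intro p hp
  rw [CLN_mem_dL] at hp ⊢
  exact h hp

lemma CLN_a_mono {n : ℕ} {B B' : FS n} (h : B' ⊆ B) : CLN_a B ⊆ CLN_a B' := by
  intro p hp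
  unfold CLN_a at hp ⊢
  rw [Finset.mem_filter] at hp ⊢
  exact ⟨hp.1, Finset.subset_empty.mp (hp.2 ▸ CLN_dP_mono h p)⟩

lemma CLN_b_mono {n : ℕ} {B B' : FS n} (h : B' ⊆ B) : CLN_b B ⊆ CLN_b B' := by
  intro p hp
  unfold CLN_b at hp ⊢
  rw [Finset.mem_filter] at hp ⊢
  exact ⟨hp.1, Finset.subset_empty.mp (hp.2 ▸ CLN_dL_mono h p)⟩

lemma CLN_stepP {n : ℕ} (δ : ℝ) (hδ : 0 ≤ δ) (B : FS n) (p l : Fin n) (hpl : (p, l) ∈ B)
    (hlt : ((dP B p).card : ℝ) < δ) : CLN_f δ B < CLN_f δ (B.filter fun e => e.1 ≠ p) := by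
  have hsub : B.filter (fun e => e.1 ≠ p) ⊆ B := Finset.filter_subset _ _
  have h1 : (B.filter fun e => e.1 = p).card + (B.filter fun e => ¬ e.1 = p).card = B.card :=
    Finset.card_filter_add_card_filter_not _
  have h2 : (B.filter fun e => e.1 = p).card ≤ (dP B p).card := by
    apply Finset.card_le_card_of_injOn (fun e => e.2)
    · intro e he
      have he' := Finset.mem_filter.mp (Finset.mem_coe.mp he)
      have h3 : (p, e.2) ∈ B := by
        have h4 : e = (p, e.2) := Prod.ext he'.2 rfl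
        rw [← h4]
        exact he'.1
      exact Finset.mem_coe.mpr ((CLN_mem_dP B p e.2).mpr h3)
    · intro e he e' he' hee
      have g := (Finset.mem_filter.mp (Finset.mem_coe.mp he)).2
      have g' := (Finset.mem_filter.mp (Finset.mem_coe.mp he')).2
      exact Prod.ext (g.trans g'.symm) hee
  have h3 : insert p (CLN_a B) ⊆ CLN_a (B.filter fun e => e.1 ≠ p) := by
    intro q hq
    rw [Finset.mem_insert] at hq
    rcases hq with rfl | hq
    · unfold CLN_a
      rw [Finset.mem_filter]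
      refine ⟨Finset.mem_univ _, ?_⟩
      rw [Finset.eq_empty_iff_forall_notMem]
      intro m hm
      rw [CLN_mem_dP, Finset.mem_filter] at hm
      exact hm.2 rfl
    · exact CLN_a_mono hsub hq
  have h4 : p ∉ CLN_a B := by
    intro hp
    unfold CLN_a at hp
    rw [Finset.mem_filter, Finset.eq_empty_iff_forall_notMem] at hp
    exact hp.2 l ((CLN_mem_dP B p l).mpr hpl)
  have h5 : (CLN_a B).card + 1 ≤ (CLN_a (B.filter fun e => e.1 ≠ p)).card := by
    rw [← Finset.card_insert_of_notMem h4]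
    exact Finset.card_le_card h3
  have h6 : (CLN_b B).card ≤ (CLN_b (B.filter fun e => e.1 ≠ p)).card :=
    Finset.card_le_card (CLN_b_mono hsub)
  unfold CLN_f
  have g1 : ((B.filter fun e => e.1 = p).card : ℝ) + ((B.filter fun e => e.1 ≠ p).card : ℝ) =
      (B.card : ℝ) := by exact_mod_cast h1
  have g2 : ((B.filter fun e => e.1 = p).card : ℝ) ≤ ((dP B p).card : ℝ) := by exact_mod_cast h2
  have g5 : ((CLN_a B).card : ℝ) + 1 ≤ ((CLN_a (B.filter fun e => e.1 ≠ p)).card : ℝ) := by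
    exact_mod_cast h5
  have g6 : ((CLN_b B).card : ℝ) ≤ ((CLN_b (B.filter fun e => e.1 ≠ p)).card : ℝ) := by
    exact_mod_cast h6
  have g7 : δ * (((CLN_a B).card : ℝ) + ((CLN_b B).card : ℝ)) + δ ≤
      δ * (((CLN_a (B.filter fun e => e.1 ≠ p)).card : ℝ) +
        ((CLN_b (B.filter fun e => e.1 ≠ p)).card : ℝ)) := by
    nlinarith
  linarith

lemma CLN_stepL {n : ℕ} (δ : ℝ) (hδ : 0 ≤ δ) (B : FS n) (p l : Fin n) (hpl : (p, l) ∈ B)
    (hlt : ((dL B l).card : ℝ) < δ) : CLN_f δ B < CLN_f δ (B.filter fun e => e.2 ≠ l) := by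
  have hsub : B.filter (fun e => e.2 ≠ l) ⊆ B := Finset.filter_subset _ _
  have h1 : (B.filter fun e => e.2 = l).card + (B.filter fun e => ¬ e.2 = l).card = B.card :=
    Finset.card_filter_add_card_filter_not _
  have h2 : (B.filter fun e => e.2 = l).card ≤ (dL B l).card := by
    apply Finset.card_le_card_of_injOn (fun e => e.1)
    · intro e he
      have he' := Finset.mem_filter.mp (Finset.mem_coe.mp he)
      have h3 : (e.1, l) ∈ B := by
        have h4 : e = (e.1, l) := Prod.ext rfl he'.2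
        rw [← h4]
        exact he'.1
      exact Finset.mem_coe.mpr ((CLN_mem_dL B e.1 l).mpr h3)
    · intro e he e' he' hee
      have g := (Finset.mem_filter.mp (Finset.mem_coe.mp he)).2
      have g' := (Finset.mem_filter.mp (Finset.mem_coe.mp he')).2
      exact Prod.ext hee (g.trans g'.symm)
  have h3 : insert l (CLN_b B) ⊆ CLN_b (B.filter fun e => e.2 ≠ l) := by
    intro q hq
    rw [Finset.mem_insert] at hq
    rcases hq with rfl | hq
    · unfold CLN_b
      rw [Finset.mem_filter]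
      refine ⟨Finset.mem_univ _, ?_⟩
      rw [Finset.eq_empty_iff_forall_notMem]
      intro m hm
      rw [CLN_mem_dL, Finset.mem_filter] at hm
      exact hm.2 rfl
    · exact CLN_b_mono hsub hq
  have h4 : l ∉ CLN_b B := by
    intro hp
    unfold CLN_b at hp
    rw [Finset.mem_filter, Finset.eq_empty_iff_forall_notMem] at hp
    exact hp.2 p ((CLN_mem_dL B p l).mpr hpl)
  have h5 : (CLN_b B).card + 1 ≤ (CLN_b (B.filter fun e => e.2 ≠ l)).card := by
    rw [← Finset.card_insert_of_notMem h4]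
    exact Finset.card_le_card h3
  have h6 : (CLN_a B).card ≤ (CLN_a (B.filter fun e => e.2 ≠ l)).card :=
    Finset.card_le_card (CLN_a_mono hsub)
  unfold CLN_f
  have g1 : ((B.filter fun e => e.2 = l).card : ℝ) + ((B.filter fun e => e.2 ≠ l).card : ℝ) =
      (B.card : ℝ) := by exact_mod_cast h1
  have g2 : ((B.filter fun e => e.2 = l).card : ℝ) ≤ ((dL B l).card : ℝ) := by exact_mod_cast h2
  have g5 : ((CLN_b B).card : ℝ) + 1 ≤ ((CLN_b (B.filter fun e => e.2 ≠ l)).card : ℝ) := by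
    exact_mod_cast h5
  have g6 : ((CLN_a B).card : ℝ) ≤ ((CLN_a (B.filter fun e => e.2 ≠ l)).card : ℝ) := by
    exact_mod_cast h6
  have g7 : δ * (((CLN_a B).card : ℝ) + ((CLN_b B).card : ℝ)) + δ ≤
      δ * (((CLN_a (B.filter fun e => e.2 ≠ l)).card : ℝ) +
        ((CLN_b (B.filter fun e => e.2 ≠ l)).card : ℝ)) := by
    nlinarith
  linarith

theorem CLN : CLN_stmt := by
  intro n B δ hδ
  obtain ⟨B', hB', hmax⟩ := Finset.exists_max_image B.powerset (CLN_f δ)
    ⟨B, Finset.mem_powerset_self B⟩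
  rw [Finset.mem_powerset] at hB'
  refine ⟨B', hB', ?_, ?_⟩
  · have h1 := hmax B (Finset.mem_powerset_self B)
    unfold CLN_f at h1
    have h2 : ((CLN_a B').card : ℝ) ≤ n := by
      have := Finset.card_le_univ (CLN_a B')
      rw [Fintype.card_fin] at this
      exact_mod_cast this
    have h3 : ((CLN_b B').card : ℝ) ≤ n := by
      have := Finset.card_le_univ (CLN_b B')
      rw [Fintype.card_fin] at this
      exact_mod_cast this
    have h4 : 0 ≤ δ * (((CLN_a B).card : ℝ) + ((CLN_b B).card : ℝ)) := by positivity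
    have h5 : δ * (((CLN_a B').card : ℝ) + ((CLN_b B').card : ℝ)) ≤ δ * (n + n) :=
      mul_le_mul_of_nonneg_left (add_le_add h2 h3) hδ
    linarith
  · intro p l hpl
    constructor
    · by_contra hc
      push Not at hc
      have h1 := hmax (B'.filter fun e => e.1 ≠ p)
        (Finset.mem_powerset.mpr ((Finset.filter_subset _ _).trans hB'))
      exact absurd (CLN_stepP δ hδ B' p l hpl hc) (not_lt.mpr h1)
    · by_contra hc
      push Not at hc
      have h1 := hmax (B'.filter fun e => e.2 ≠ l)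
        (Finset.mem_powerset.mpr ((Finset.filter_subset _ _).trans hB'))
      exact absurd (CLN_stepL δ hδ B' p l hpl hc) (not_lt.mpr h1)

end Pool.Agent.XT
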