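import Pool.Agent.helper3.XT.Spec

set_option autoImplicit false

namespace Pool.Agent.XT

open Finset SimpleGraph

lemma DIS_phi {n : ℕ} {P : Finset (Fin n × Fin n × Fin n)} {x y z : Fin n}
    (h : x ∈ Phi P y z) : ∃ l m, l ≠ m ∧ (y, l, x) ∈ P ∧ (x, m, z) ∈ P := by
  unfold Phi at h
  exact (Finset.mem_filter.mp h).2

theorem DIS (hGEO : GEO_stmt) : DIS_stmt := by
  intro n B P hG hC E x y s hE hx hy hP hrow hcol
  obtain ⟨huniq, _, _⟩ := hGEO n B P hG hC
  have row : ∀ a b b', b ≠ b' → (a, b) ∈ E → (a, b') ∈ E → s (a, b) ≠ s (a, b') := by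
    intro a b b' hb h1 h2
    obtain ⟨l, m, hlm, g1, g2⟩ := DIS_phi (hrow a b b' hb h1 h2)
    have e1 : s (a, b) = l := huniq _ _ _ _ (hP _ h1) (hC.sy _ _ _ g1)
    have e2 : s (a, b') = m := huniq _ _ _ _ (hP _ h2) g2
    rw [e1, e2]
    exact hlm
  have col : ∀ a a' b, a ≠ a' → (a, b) ∈ E → (a', b) ∈ E → s (a, b) ≠ s (a', b) := by
    intro a a' b ha h1 h2
    obtain ⟨l, m, hlm, g1, g2⟩ := DIS_phi (hcol a a' b ha h1 h2)
    have e1 : s (a, b) = l := huniq _ _ _ _ (hP _ h1) g1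
    have e2 : s (a', b) = m := huniq _ _ _ _ (hP _ h2) (hC.sy _ _ _ g2)
    rw [e1, e2]
    exact hlm
  have inc1 : ∀ e ∈ E, (y e.1, s e) ∈ B := fun e he => hC.fx _ _ _ (hP e he)
  have inc2 : ∀ e ∈ E, (x e.2, s e) ∈ B := fun e he => hC.fx _ _ _ (hC.sy _ _ _ (hP e he))
  rintro ⟨a, b⟩ he ⟨a', b'⟩ he' hs
  by_cases ha : a = a'
  · subst ha
    by_cases hb : b = b'
    · subst hb
      rfl
    · exact absurd hs (row a b b' hb he he')
  · by_cases hb : b = b'
    · subst hb
      exact absurd hs (col a a' b ha he he')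
    · exfalso
      rcases hE a a' b b' ha hb he he' with h1 | h1
      · have hne : y a ≠ x b' := hC.ne _ _ _ (hP _ h1)
        have i1 := inc1 _ h1
        have i2 := inc2 _ h1
        have i3 := inc1 _ he
        have i4 := inc2 _ he'
        rw [← hs] at i4
        rcases hG.c4 _ _ _ _ i3 i4 i1 i2 with h | h
        · exact hne h
        · exact row a b b' hb he h1 h
      · have hne : y a' ≠ x b := hC.ne _ _ _ (hP _ h1)
        have i1 := inc1 _ h1
        have i2 := inc2 _ h1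
        have i3 := inc1 _ he'
        have i4 := inc2 _ he
        rw [hs] at i4
        rcases hG.c4 _ _ _ _ i3 i4 i1 i2 with h | h
        · exact hne h
        · exact row a' b' b (Ne.symm hb) he' h1 h

end Pool.Agent.XT
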